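import Pool.Agent.Q146.TR.Main

/-!
# Dense lattices from one tridiagonal Gram matrix which tends to the identity

Let `b_0, b_1, b_2, …` be vectors of a Hilbert space with `b_i ⟂ b_j` for `|i - j| ≥ 2`, written in the
basis of the Gram-Schmidt directions: `b_0 = a_0 e_0`, `b_{i+1} = c_i e_i + a_{i+1} e_{i+1}`. Let `L_n` be
the lattice generated by `b_0, …, b_{n-1}`.

* The determinants `D_n = a_0 ⋯ a_{n-1}` of the `L_n` can be prescribed whenever `∑ ω_n / D_n < 2`, where
  `ω_n` is the volume of the unit ball: for suitable `c_i ∈ [1, 1 + a_i]` all `L_n` have minimum `≥ 1`.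
* So one sequence of vectors with `|b_i| → 1` and `b_i · b_{i+1} → 0` gives lattices as dense as in the
  theorem of Minkowski and Hlawka, up to the factor `n²`, in all dimensions. More generally every
  `κ ≥ √(2π)` is the limit of `√i b_i · b_{i+1}` for such a sequence, and then `γ(L_n) / n → 1 / (e κ²)`.
-/

set_option autoImplicit false

open Filter Finset MeasureTheory
open scoped Topology

namespace Pool.Agent.Results.MP_ef2672_gt.DenseTowers

open Pool.Agent.TH220.HG (gam)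

/-- The matrix with the columns `b_0 = a_0 e_0`, `b_j = c_{j-1} e_{j-1} + a_j e_j`, `j < n`. -/
def mat (a c : ℕ → ℝ) (n : ℕ) : Matrix (Fin n) (Fin n) ℝ := fun i j =>
  if i = j then a i else if (i : ℕ) + 1 = j then c i else 0

/-- All nonzero integer combinations of the `b_i` have norm at least one. -/
def Separated (a c : ℕ → ℝ) : Prop := ∀ (n : ℕ) (w : Fin n → ℤ), w ≠ 0 →
  1 ≤ ∑ i, ((mat a c n).mulVec (fun j => (w j : ℝ)) i) ^ 2

/-- `a_i > 0`, `|b_i| → 1`, `b_i · b_{i+1} = a_i c_i → 0`, and all nonzero integer combinations have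
norm at least one. -/
structure Tower (a c : ℕ → ℝ) : Prop where
  pos : ∀ i, 0 < a i
  norms : Tendsto (fun i => c i ^ 2 + a (i + 1) ^ 2) atTop (𝓝 1)
  inner : Tendsto (fun i => a i * c i) atTop (𝓝 0)
  sep : Separated a c

/-- the volume of the unit ball of `ℝ^n` -/
noncomputable def ball (n : ℕ) : ℝ :=
  (volume (Metric.ball (0 : EuclideanSpace ℝ (Fin n)) 1)).toReal

lemma ball_eq (n : ℕ) : ball (n + 1) = Q146.TR.om (n + 1) := by
  have h1 := (Q146.TR.om_pos (n + 1)).le
  unfold ball Q146.TR.om at *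
  rw [EuclideanSpace.volume_ball]
  simp only [ENNReal.ofReal_one, one_pow, one_mul, Fintype.card_fin]
  rw [ENNReal.toReal_ofReal h1]

lemma tower_iff (a c : ℕ → ℝ) : Tower a c ↔ Q146.TR.Tower a c :=
  ⟨fun h => ⟨h.pos, h.norms, h.inner, h.sep⟩, fun h => ⟨h.pos, h.norms, h.inner, h.sep⟩⟩

theorem result :
    -- the determinants of the sections can be prescribed
    (∀ a : ℕ → ℝ, (∀ i, 0 < a i) →
      (∀ n : ℕ, ∑ m ∈ range n, ball (m + 1) / ∏ i ∈ range (m + 1), a i < 2) →
      ∃ c : ℕ → ℝ, (∀ i, 1 ≤ c i ∧ c i ≤ 1 + a i) ∧ Separated a c ∧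
        ∀ n, (mat a c n).det = ∏ i ∈ range n, a i) ∧
    -- towers with `√i b_i · b_{i+1} → κ`
    (∀ κ : ℝ, √(2 * Real.pi) ≤ κ → ∃ a c : ℕ → ℝ, Tower a c ∧
      Tendsto (fun i : ℕ => √i * (a i * c i)) atTop (𝓝 κ) ∧
      Tendsto (fun n : ℕ => gam (mat a c n) / n) atTop (𝓝 (1 / (Real.exp 1 * κ ^ 2))) ∧
      ∀ n : ℕ, 0 < n → (mat a c n).det = (κ / √(2 * Real.pi)) ^ n * n ^ 2 * ball n) := by
  refine ⟨?_, ?_⟩
  · intro a ha hsum
    obtain ⟨c, hc, hs⟩ := Q146.TR.exists_tower ha (by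
      intro n
      have h1 : ∀ m, Q146.TR.V (m + 1) 1 / ENNReal.ofReal (Q146.TR.D a (m + 1)) =
          ENNReal.ofReal (ball (m + 1) / ∏ i ∈ range (m + 1), a i) := by
        intro m
        rw [Q146.TR.V_one, ball_eq]
        exact (ENNReal.ofReal_div_of_pos (Q146.TR.D_pos ha (m + 1))).symm
      simp only [h1]
      rw [← ENNReal.ofReal_sum_of_nonneg, show (2 : ENNReal) = ENNReal.ofReal 2 by simp,
        ENNReal.ofReal_lt_ofReal_iff (by norm_num)]
      · exact hsum n
      · intro m _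
        rw [ball_eq]
        have h2 := Q146.TR.D_pos ha (m + 1)
        rw [Q146.TR.D] at h2
        exact (div_pos (Q146.TR.om_pos (m + 1)) h2).le)
    refine ⟨c, hc, fun n w hw => ?_, fun n => Q146.TR.det_mat a c n⟩
    exact (hs n _ (Q146.TR.ext_ne hw) (Q146.TR.ext_zero w)).trans
      (Q146.TR.norm_mat a c w).symm.le
  · intro κ hκ
    obtain ⟨a, c, h, -, h1, h2, h3⟩ := Q146.TR.exist hκ
    exact ⟨a, c, (tower_iff a c).2 h, h1, h2, h3⟩

end Pool.Agent.Results.MP_ef2672_gt.DenseTowers
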