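import Pool.Agent.Q197.VR.Main

/-! Hermite's constant restricted to lattices with few Voronoi relevant vectors. -/

set_option autoImplicit false

open Filter Pool.Agent.Q197.VR Pool.Agent.H160R3.Herm
open Pool.Agent.TH220.HG (gam)
open scoped Topology

namespace Pool.Agent.Results.MP_ef2672_gt.FewVoronoiVectors

/-- Let `restricted n F` be Hermite's constant restricted to the lattices of rank `n` whose Voronoi
cells are cut out by at most `F` pairs of half spaces. (1) Up to constants it is
`min (n, 1 + log (F / n))` for all `F ≥ n`. (2) For `F ≥ 2^n - 1` it is Hermite's constant, and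
there are no such lattices for `F < n`. (3) A lattice of invariant at least `ε n` has at least
`(n / 8) exp (π ε n / 8)` pairs of relevant vectors. (4) `restricted n (F n) / n → 0` if and only if
`log (F n) / n → 0`. -/
theorem result :
    (∀ n F : ℕ, 0 < n → n ≤ F →
      min (n : ℝ) (1 + Real.log (F / n)) / 600 ≤ restricted n F ∧
      restricted n F ≤ 6 * min (n : ℝ) (1 + Real.log (F / n))) ∧
    (∀ n F : ℕ, 2 ^ n - 1 ≤ F → restricted n F = hermite n) ∧
    (∀ (n F : ℕ) (A : Matrix (Fin n) (Fin n) ℝ), A.det ≠ 0 → FewPairs A F → n ≤ F) ∧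
    (∀ (n F : ℕ) (A : Matrix (Fin n) (Fin n) ℝ), 0 < n → A.det ≠ 0 → FewPairs A F →
      ∀ ε : ℝ, ε * n ≤ gam A → n / 8 * Real.exp (Real.pi / 8 * ε * n) ≤ F) ∧
    (∀ F : ℕ → ℕ, (∀ n, n ≤ F n) →
      (Tendsto (fun n : ℕ => restricted n (F n) / n) atTop (𝓝 0) ↔
        Tendsto (fun n : ℕ => Real.log (F n) / n) atTop (𝓝 0))) :=
  ⟨fun _ _ hn hF => ⟨lower hn hF, restricted_le hn hF⟩, fun _ _ hF => restricted_eq hF,
    fun _ _ _ hA h => dim_le hA h, fun _ _ _ hn hA h _ hε => many hn hA h hε,
    fun F hF => iff_subexp F hF⟩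

end Pool.Agent.Results.MP_ef2672_gt.FewVoronoiVectors
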