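import Pool.Agent.Q197.HS.Mat

/-! Hermite's constant for lattices on which an elementary abelian 2-group acts with bounded
multiplicities. -/

set_option autoImplicit false

open Filter Pool.Agent.Q197.HS
open Pool.Agent.TH220.HG (gam)
open scoped Topology

namespace Pool.Agent.Results.MP_ef2672_gt.SymmetricLattices

/-- Let `R 0, ..., R (k - 1)` be commuting orthogonal involutions of `ℝⁿ` which preserve the lattice
`A ℤⁿ`, and let all their joint eigenspaces have dimension at most `s`. (1) Then `n ≤ s 2 ^ k`, and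
the Hermite invariant of the lattice is at most `4 ^ (s + 6) e ^ (-N / 30) 2 ^ k` for all `N` with
`tow s N ≤ k`. (2) The same for lattices invariant under commuting involutive permutations of the
coordinates which generate a group with at most `s` orbits. (3) So for fixed `s` Hermite's constant
restricted to these lattices, divided by `2 ^ k`, tends to zero as `k → ∞`. (4) Lattices with
invariant at least `c 2 ^ k`, `c > 0`, have such symmetries for boundedly many `k` only. -/
theorem result :
    (∀ (s k n : ℕ) (A : Matrix (Fin n) (Fin n) ℝ) (R : Fin k → Matrix (Fin n) (Fin n) ℝ),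
      0 < n → A.det ≠ 0 → Symmetric s A R → Bounded s k A) ∧
    (∀ (s k n : ℕ) (A : Matrix (Fin n) (Fin n) ℝ) (π : Fin k → Equiv.Perm (Fin n)),
      0 < n → A.det ≠ 0 → PermSymmetric s A π → Bounded s k A) ∧
    (∀ s : ℕ, Tendsto (fun k : ℕ => symHermite s k / 2 ^ k) atTop (𝓝 0)) ∧
    (∀ (s : ℕ) (c : ℝ), 0 < c → ∃ K : ℕ, ∀ (n k : ℕ) (A : Matrix (Fin n) (Fin n) ℝ)
      (R : Fin k → Matrix (Fin n) (Fin n) ℝ),
      0 < n → A.det ≠ 0 → Symmetric s A R → c * 2 ^ k ≤ gam A → k < K) :=
  ⟨fun _ _ _ _ _ hn hA hρ => bounded hn hA hρ, fun _ _ _ _ _ hn hA h => bounded_perm hn hA h,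
    tendsto_sym, fun _ _ hc => few hc⟩

end Pool.Agent.Results.MP_ef2672_gt.SymmetricLattices
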