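import Pool.Agent.Q146.TR.Main

/-!
# The Hermite invariants of lattices whose tridiagonal Gram matrix tends to the identity

Let `b_0, b_1, b_2, …` be vectors of a Hilbert space with `b_i ⟂ b_j` for `|i - j| ≥ 2`, `|b_i| → 1` and
`b_i · b_{i+1} → 0`, such that all nonzero integer combinations have norm at least `1`. In the basis of
the Gram-Schmidt directions `b_0 = a_0 e_0`, `b_{i+1} = c_i e_i + a_{i+1} e_{i+1}`. We study the Hermite
invariants `γ(L_n)` of the lattices `L_n` generated by `b_0, …, b_{n-1}`.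

* Dichotomy: either `γ(L_n) → 1`, or `γ(L_n)` is asymptotically the inverse of the geometric mean of the
  squares of the inner products `b_i · b_{i+1}`.
* If `√i |b_i · b_{i+1}| ≤ κ < π / √e` for all large `i`, then `γ(L_n) → 1`.
* If `√i |b_i · b_{i+1}| → κ > 0`, then `γ(L_n) → 1` or `γ(L_n) / n → 1 / (e κ²)`, and the latter is
  possible only if `1 / (e κ²) ≤ liminf γ_n / n`.
-/

set_option autoImplicit false

open Filter Finset
open scoped Topology

namespace Pool.Agent.Results.MP_ef2672_gt.TowerDichotomy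

open Pool.Agent.H160R3.Herm (hermite)
open Pool.Agent.TH220.HG (gam)

/-- The matrix with the columns `b_0 = a_0 e_0`, `b_j = c_{j-1} e_{j-1} + a_j e_j`, `j < n`. -/
def mat (a c : ℕ → ℝ) (n : ℕ) : Matrix (Fin n) (Fin n) ℝ := fun i j =>
  if i = j then a i else if (i : ℕ) + 1 = j then c i else 0

/-- All nonzero integer combinations of the `b_i` have norm at least one. -/
def Separated (a c : ℕ → ℝ) : Prop := ∀ (n : ℕ) (w : Fin n → ℤ), w ≠ 0 →
  1 ≤ ∑ i, ((mat a c n).mulVec (fun j => (w j : ℝ)) i) ^ 2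

/-- `a_i > 0`, `|b_i| → 1`, `b_i · b_{i+1} = a_i c_i → 0`, and all nonzero integer combinations have
norm at least one. -/
structure Tower (a c : ℕ → ℝ) : Prop where
  pos : ∀ i, 0 < a i
  norms : Tendsto (fun i => c i ^ 2 + a (i + 1) ^ 2) atTop (𝓝 1)
  inner : Tendsto (fun i => a i * c i) atTop (𝓝 0)
  sep : Separated a c

lemma tower_iff (a c : ℕ → ℝ) : Tower a c ↔ Q146.TR.Tower a c :=
  ⟨fun h => ⟨h.pos, h.norms, h.inner, h.sep⟩, fun h => ⟨h.pos, h.norms, h.inner, h.sep⟩⟩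

theorem result (a c : ℕ → ℝ) (h : Tower a c) :
    -- the dichotomy
    ((Tendsto a atTop (𝓝 1) ∧ Tendsto c atTop (𝓝 0) ∧
        Tendsto (fun n => gam (mat a c n)) atTop (𝓝 1)) ∨
      (Tendsto a atTop (𝓝 0) ∧ Tendsto (fun i => |c i|) atTop (𝓝 1) ∧
        ((∀ i, c i ≠ 0) → Tendsto (fun n : ℕ => gam (mat a c n) *
          (∏ i ∈ range n, (a i * c i) ^ 2) ^ ((1 : ℝ) / n)) atTop (𝓝 1)))) ∧
    -- the second case is impossible for `κ < π / √e`
    (∀ κ : ℝ, κ < Real.pi / √(Real.exp 1) → (∀ᶠ i : ℕ in atTop, √i * |a i * c i| ≤ κ) →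
        Tendsto (fun n => gam (mat a c n)) atTop (𝓝 1)) ∧
    -- the growth in the second case
    (∀ κ : ℝ, 0 < κ → Tendsto (fun i : ℕ => √i * |a i * c i|) atTop (𝓝 κ) →
        Tendsto (fun n => gam (mat a c n)) atTop (𝓝 1) ∨
        (Tendsto (fun n : ℕ => gam (mat a c n) / n) atTop (𝓝 (1 / (Real.exp 1 * κ ^ 2))) ∧
          1 / (Real.exp 1 * κ ^ 2) ≤ liminf (fun n : ℕ => hermite n / n) atTop)) := by
  have h' := (tower_iff a c).1 h
  refine ⟨?_, ?_, ?_⟩
  · rcases Q146.TR.dichotomy h.pos h.norms h.inner with h1 | h1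
    · exact Or.inl ⟨h1.1, h1.2, Q146.TR.phase_two h' h1.1⟩
    · exact Or.inr ⟨h1.1, h1.2, fun hc => Q146.TR.phase_one h' h1.2 hc⟩
  · intro κ hκ hk
    exact Q146.TR.threshold h' hκ hk
  · intro κ hκ hk
    exact Q146.TR.growth' h' hκ hk

end Pool.Agent.Results.MP_ef2672_gt.TowerDichotomy
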